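import Mathlib
import Pool.Agent.V5helper78.PK.DU

/-!
# Multiple coverings by planks: a dual description of the limit of `c_K(k)/k`

For every convex body `K` the limit of `c_K(k)/k`, multiplied by the minimal width of `K`, is the smallest cost
of a fractional covering of `K` by planks, and it is the largest mass of a measure on `K` with
`μ(P) ≤ width(P)` for all planks `P`; in particular `c_K(k) = k` for all `k` if and only if `K` carries such a
measure of mass `w(K)`.
-/

set_option autoImplicit false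

open Filter Topology MeasureTheory

namespace Pool.Agent.Results.MP_4043ba_gt.Duality

open Pool.Agent.Helper934.PlankDefs Pool.Agent.Helper934.PlankMain Pool.Agent.V5helper78.PK

/-- Let `K` be a convex body in `ℝ^d`, `d ≥ 1`, with minimal width `w`. There is `l` such that (1) `c_K(k)/k → l`
and `c_K(k) ≥ l k` for all `k`; (2) `l w` is the infimum of the sums `∑ c_i (b_i - a_i)` for all finite families of
planks `P_i = {a_i ≤ ⟨x, θ_i⟩ ≤ b_i}` with weights `c_i ≥ 0` such that the weights of the planks which contain `x` have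
sum at least `1`, for every `x` in `K`; (3) there is a finite Borel measure `μ` on `K` with `μ(P) ≤ width(P)` for all
planks `P` and `μ(K) = l w`; (4) `μ(K) ≤ l w` for every Borel measure with `μ(P) ≤ width(P)` for all planks `P`;
(5) `c_K(k) = k` for all `k` if and only if there is a Borel measure with `μ(P) ≤ width(P)` for all planks `P` and
`μ(K) = w`. -/
theorem result (d : ℕ) (hd : 1 ≤ d) (K : Set (EuclideanSpace ℝ (Fin d))) (hK : IsConvexBody K) :
    ∃ l : ℝ, (Tendsto (fun k : ℕ => coverConst K k / k) atTop (𝓝 l) ∧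
        ∀ k : ℕ, l * k ≤ coverConst K k) ∧
      IsGLB {t : ℝ | ∃ (m : ℕ) (θ : Fin m → EuclideanSpace ℝ (Fin d)) (a b c : Fin m → ℝ),
        (∀ i, ‖θ i‖ = 1) ∧ (∀ i, a i ≤ b i) ∧ (∀ i, 0 ≤ c i) ∧
        (∀ x ∈ K, 1 ≤ ∑ i, c i * (plank (θ i) (a i) (b i)).indicator (fun _ => (1 : ℝ)) x) ∧
        t = ∑ i, c i * (b i - a i)} (l * minWidth K) ∧
      (∃ μ : Measure (EuclideanSpace ℝ (Fin d)), IsFiniteMeasure μ ∧ μ Kᶜ = 0 ∧
        (∀ (θ : EuclideanSpace ℝ (Fin d)) (a b : ℝ), ‖θ‖ = 1 → a ≤ b →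
          μ (plank θ a b) ≤ ENNReal.ofReal (b - a)) ∧ μ K = ENNReal.ofReal (l * minWidth K)) ∧
      (∀ μ : Measure (EuclideanSpace ℝ (Fin d)),
        (∀ (θ : EuclideanSpace ℝ (Fin d)) (a b : ℝ), ‖θ‖ = 1 → a ≤ b →
          μ (plank θ a b) ≤ ENNReal.ofReal (b - a)) → μ K ≤ ENNReal.ofReal (l * minWidth K)) ∧
      ((∀ k : ℕ, coverConst K k = k) ↔ ∃ μ : Measure (EuclideanSpace ℝ (Fin d)),
        (∀ (θ : EuclideanSpace ℝ (Fin d)) (a b : ℝ), ‖θ‖ = 1 → a ≤ b →
          μ (plank θ a b) ≤ ENNReal.ofReal (b - a)) ∧ μ K = ENNReal.ofReal (minWidth K)) := by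
  have hw := minWidth_pos hd hK
  obtain ⟨μ, hμ, hμ0, hμp, hμK⟩ := exists_measure hd hK
  have hμK' : μ K = ENNReal.ofReal (limConst K * minWidth K) := by
    rw [← hμK, ENNReal.ofReal_toReal (measure_ne_top _ _)]
  have hpp := pp_one hd hK
  refine ⟨limConst K, ⟨tendsto_limConst hd hK, limConst_mul_le hd hK⟩, ⟨?_, ?_⟩,
    ⟨μ, hμ, hμ0, hμp, hμK'⟩, fun ν hν => measure_le_cover hd hK hν, ?_, ?_⟩
  · rintro t ⟨m, θ, a, b, c, h1, h2, h3, h4, ht⟩
    exact limConst_le_FC hd hK ⟨m, θ, a, b, c, h1, h2, h3, fun x => h4 x x.2, ht⟩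
  · intro s hs
    rw [← hpp]
    refine le_csInf (FC_nonempty hd hK 1) ?_
    rintro t ⟨m, θ, a, b, c, h1, h2, h3, h4, ht⟩
    exact hs ⟨m, θ, a, b, c, h1, h2, h3, fun x hx => h4 ⟨x, hx⟩, ht⟩
  · intro h
    have h1 : limConst K = 1 := by
      refine le_antisymm ?_ (limConst_ge_of hd hK fun k _ => by rw [one_mul, h k])
      refine limConst_le_of hd hK (C := 0) fun k _ => ?_
      rw [one_mul, add_zero, h k]
    exact ⟨μ, hμp, by rw [hμK', h1, one_mul]⟩
  · rintro ⟨ν, hν, hνK⟩ k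
    have h1 := measure_le_cover hd hK hν
    rw [hνK, ENNReal.ofReal_le_ofReal_iff (mul_nonneg (limConst_nonneg hd hK) hw.le)] at h1
    have h2 : 1 ≤ limConst K := by
      have : 1 * minWidth K ≤ limConst K * minWidth K := by linarith
      exact le_of_mul_le_mul_right this hw
    refine le_antisymm (coverConst_le_self hd hK k) ?_
    refine le_trans ?_ (limConst_mul_le hd hK k)
    have : (0 : ℝ) ≤ k := Nat.cast_nonneg k
    nlinarith

end Pool.Agent.Results.MP_4043ba_gt.Duality
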