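import Mathlib
import Pool.Agent.V5helper78.PK.HM

/-!
# Multiple coverings by planks: flat bodies, and the exact threshold for spheroids

Put `ρ_d = √π Γ((d-1)/2) / Γ((d-2)/2)`, `d ≥ 3`.  If a convex body `K` of `ℝ^d` lies in a slab of width `2h` and
contains a spheroid with one half-axis `h` orthogonal to the slab and the others `R h`, `R ≥ ρ_d`, then
`c_K(k) = k` for all `k`: multiple coverings of a flat body are never cheaper than `k` copies of the slab.  For the
spheroid itself with `1 ≤ R < ρ_d` they are: then `lim c_K(k)/k < 1`.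

Idea.  By linear programming duality (file `DU`) the limit times `w(K)` is the largest mass of a measure `ν` on
`K` with `ν(P) ≤ width(P)` for all planks.  For `R ≥ ρ_d` take `h ω₀ u + R h (ω₁ ξ + ω₂ η)`, with `ω` on the
two-dimensional sphere and `(ξ, η)` a random orthonormal pair orthogonal to `u` (Haar measure): for a unit vector `θ`
at the angle `α` to `u` the bound is the mean of `(cos² α + R² sin² α q²)^(-1/2) ≤ cos² α + sin² α / (R q)`, where
`E (1/q) = ρ_d` (file `HG`).  Conversely, a measure of mass `2h` on the spheroid has a uniform marginal in the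
direction `u`, and integrating the bound over the thin planks which contain `u` gives `R ≥ ρ_d` (file `HM`).
-/

set_option autoImplicit false

open Filter Topology

namespace Pool.Agent.Results.MP_4043ba_gt.FlatBodies

open Pool.Agent.Helper934.PlankDefs Pool.Agent.Helper934.PlankMain Pool.Agent.Helper934.PlankSupp
  Pool.Agent.V5helper78.PK

theorem ratio_eq {n : ℕ} (hn : 2 ≤ n) : bet 2 / bet n =
    Real.sqrt Real.pi * Real.Gamma ((n : ℝ) / 2) / Real.Gamma (((n : ℝ) - 1) / 2) := by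
  have h2 : (2 : ℝ) ≤ n := by exact_mod_cast hn
  have h3 : 0 < Real.Gamma (((n : ℝ) - 1) / 2) := Real.Gamma_pos_of_pos (by linarith)
  have h4 : 0 < Real.Gamma ((n : ℝ) / 2) := Real.Gamma_pos_of_pos (by linarith)
  have hpi := Real.pi_pos
  have hs : 0 < Real.sqrt Real.pi := Real.sqrt_pos.2 hpi
  have hss : Real.sqrt Real.pi * Real.sqrt Real.pi = Real.pi := Real.mul_self_sqrt hpi.le
  rw [bet_two, bet]
  rw [div_eq_div_iff (by positivity) (by positivity)]
  rw [← mul_div_assoc, eq_div_iff (by positivity)]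
  calc Real.pi / 2 * Real.Gamma (((n : ℝ) - 1) / 2) * (2 * Real.Gamma ((n : ℝ) / 2))
      = Real.pi * (Real.Gamma (((n : ℝ) - 1) / 2) * Real.Gamma ((n : ℝ) / 2)) := by ring
    _ = (Real.sqrt Real.pi * Real.sqrt Real.pi) *
        (Real.Gamma (((n : ℝ) - 1) / 2) * Real.Gamma ((n : ℝ) / 2)) := by rw [hss]
    _ = _ := by ring

/-- Let `d ≥ 3` and `ρ = √π Γ((d-1)/2) / Γ((d-2)/2)`.  (1) If the convex body `K` in `ℝ^d` lies in the slab
`|⟨x - c, u⟩| ≤ h` (`u` a unit vector) and contains the spheroid with centre `c`, half-axis `h` in the direction `u`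
and half-axes `R h` in the directions orthogonal to `u`, where `R ≥ ρ`, then `c_K(k) = k` for all `k`.  (2) For the
spheroid `E` with centre `0`, half-axis `1` in the direction `u` and the others `R ≥ 1`: `c_E(k) = k` for all
`k` if and only if `R ≥ ρ`; if `R < ρ`, then the limit of `c_E(k)/k` is smaller than `1`. -/
theorem result (d : ℕ) (hd : 3 ≤ d) (ρ : ℝ)
    (hρ : ρ = Real.sqrt Real.pi * Real.Gamma (((d : ℝ) - 1) / 2) / Real.Gamma (((d : ℝ) - 2) / 2)) :
    (∀ (K : Set (EuclideanSpace ℝ (Fin d))), IsConvexBody K →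
      ∀ (c u : EuclideanSpace ℝ (Fin d)) (h R : ℝ), ‖u‖ = 1 → 0 < h → ρ ≤ R →
      {x : EuclideanSpace ℝ (Fin d) | (inner ℝ (x - c) u : ℝ) ^ 2 +
        (‖x - c‖ ^ 2 - (inner ℝ (x - c) u : ℝ) ^ 2) / R ^ 2 ≤ h ^ 2} ⊆ K →
      K ⊆ {x : EuclideanSpace ℝ (Fin d) | |(inner ℝ (x - c) u : ℝ)| ≤ h} →
      ∀ k : ℕ, coverConst K k = k) ∧
    ∀ (u : EuclideanSpace ℝ (Fin d)) (R : ℝ), ‖u‖ = 1 → 1 ≤ R →
      ∀ E : Set (EuclideanSpace ℝ (Fin d)),
      E = {x : EuclideanSpace ℝ (Fin d) | (inner ℝ x u : ℝ) ^ 2 +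
        (‖x‖ ^ 2 - (inner ℝ x u : ℝ) ^ 2) / R ^ 2 ≤ 1} →
      IsConvexBody E ∧ ((∀ k : ℕ, coverConst E k = k) ↔ ρ ≤ R) ∧
      (R < ρ → ∃ l : ℝ, l < 1 ∧ Tendsto (fun k : ℕ => coverConst E k / k) atTop (𝓝 l)) := by
  obtain ⟨m, rfl⟩ : ∃ m, d = m + 1 + 1 := ⟨d - 2, by omega⟩
  have hm : 1 ≤ m := by omega
  have hn : 2 ≤ m + 1 := by omega
  have hd1 : 1 ≤ m + 1 + 1 := by omega
  have hρ' : ρ = bet 2 / bet (m + 1) := by
    rw [hρ, ratio_eq hn]
    push_cast
    congr 3
    · ring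
    · ring
  rw [hρ']
  refine ⟨fun K hb c u h R hu hh hR hK hK2 k => sharp_coverConst hn hb hu hh hR hK hK2 k, ?_⟩
  intro u R hu hR E hE
  have hE' : E = spheroid 0 u 1 R := by
    rw [hE]
    ext x
    rw [mem_spheroid, one_pow, Set.mem_ofPred_eq]
  have hb := body_spheroid hu hR
  have hle : limConst (spheroid 0 u 1 R) ≤ 1 := by
    have h2 := limConst_le_radius hd1 hb
    have hw := minWidth_pos hd1 hb
    rwa [← symm_width hd1 hb 0 (symm_spheroid R), div_self hw.ne'] at h2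
  rw [hE']
  refine ⟨hb, ⟨fun h => ?_, fun h k => ?_⟩, fun h => ?_⟩
  · refine need hm hu hR ?_
    refine limConst_ge_of hd1 hb fun k _ => ?_
    rw [one_mul, h k]
  · refine sharp_coverConst hn hb hu one_pos h Set.Subset.rfl (spheroid_slab hu R) k
  · refine ⟨limConst (spheroid 0 u 1 R), lt_of_not_ge fun h1 => ?_, tendsto_limConst hd1 hb⟩
    exact absurd (need hm hu hR h1) (not_le.2 h)

end Pool.Agent.Results.MP_4043ba_gt.FlatBodies
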