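import Mathlib
import Pool.Agent.V5helper78.PK.GH
import Pool.Agent.V5helper78.PK.SX
import Pool.Agent.V5helper78.PK.SW

/-!
# Multiple coverings by planks in all dimensions: the order of growth of `c_d(k)/k`

For every convex body `K` in `ℝ^d`, `d ≥ 3`, every `k`-fold covering of `K` by planks has total width at least
`(β_d/2) k w(K)`, where `β_d = √π Γ((d-1)/2) / (2 Γ(d/2)) ≥ √(π/(2(d-1)))` (the limit of `c_B(k)/k` for a ball `B`),
and there are convex bodies (regular simplices) for which `(1/√d) k w(K)` is asymptotically enough.  So the limit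
of `c_d(k)/k`, which is shown to exist, is of the exact order `d^(-1/2)`.

Idea of the lower bound.  For every three-dimensional subspace `H` the convex body `K` contains a translate of
the ball of `H` of radius `w(K)/4`: this is proved by a separation argument, because `|b| = √(π/2) E |⟨b, g⟩|` for a
Gaussian vector `g`, and `w |U| ≤ ∑ h_K(u_j)` for all partial sums `U` of vectors `u_j` with sum `0`.  A `k`-fold covering of
`K` gives a `k`-fold covering of this ball by planks of widths `(b_i - a_i)/|P_H θ_i|`, for which the bound `2 k` times the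
radius is in the starting library (theorem of Archimedes).  The mean of `1/|P_H θ|` over all `H` (Haar measure) is
`1/β_d`.

Upper bound `4/(5 √d)`, `d ≥ 10^6`: the regular simplex is covered by planks orthogonal to the facets (near the facets)
and by planks `{|y_i - y_j| ≤ s}`, `s ≤ ε`, where `y_i ≥ 0` are the multiples of the barycentric coordinates with mean one.
With the weights `φ(y_i)/N` and `(1 - |y_i - y_j|/ε)_+ / (ε N²)`, `N = d + 1`, the number of planks which contain a point is
at least `(1/N) ∑ φ(y_i) + ∫ g² - 1/(ε N)`, `g` the density of the `y_i` smoothed at the scale `ε`, and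
`g² ≥ 2 g ν - ν²` for the function `ν = min (63/100) (9/40 (3 - a))` on `[0, 3]`.
-/

set_option autoImplicit false

open Filter Topology

namespace Pool.Agent.Results.MP_4043ba_gt.PlankGrowthInDimension

open Pool.Agent.Helper934.PlankDefs Pool.Agent.Helper934.PlankMain Pool.Agent.V5helper78.PK

/-- Let `d ≥ 3` and `β = √π Γ((d-1)/2) / (2 Γ(d/2))`, so that `√(π/(2(d-1))) ≤ β ≤ √(π/(2(d-2)))`. (1) For every
convex body `K` in `ℝ^d` the sequence `c_K(k)/k` has a limit `l`, with `β/2 ≤ l ≤ 2 r/w`, and `c_K(k) ≥ l k` for all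
`k`. (2) The sequence `c_d(k)/k` has a limit `L`, with `β/2 ≤ L ≤ 1/√d`, and `c_d(k) ≥ L k` for all `k`; `L` is the
infimum of the limits of the sequences `c_K(k)/k`; if `d ≥ 10^6`, then `5/(8 √d) ≤ L ≤ 4/(5 √d)`. -/
theorem result (d : ℕ) (hd : 3 ≤ d) (β : ℝ)
    (hβ : β = Real.sqrt Real.pi * Real.Gamma (((d : ℝ) - 1) / 2) / (2 * Real.Gamma ((d : ℝ) / 2))) :
    (Real.sqrt (Real.pi / (2 * (d - 1))) ≤ β ∧ β ≤ Real.sqrt (Real.pi / (2 * (d - 2)))) ∧
    (∀ K : Set (EuclideanSpace ℝ (Fin d)), IsConvexBody K → ∃ l : ℝ,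
      β / 2 ≤ l ∧ l ≤ 2 * inradius K / minWidth K ∧
      (∀ k : ℕ, l * k ≤ coverConst K k) ∧
      Tendsto (fun k : ℕ => coverConst K k / k) atTop (𝓝 l)) ∧
    ∃ L : ℝ, β / 2 ≤ L ∧ L ≤ 1 / Real.sqrt d ∧
      (∀ k : ℕ, L * k ≤ coverConstDim d k) ∧
      Tendsto (fun k : ℕ => coverConstDim d k / k) atTop (𝓝 L) ∧
      IsGLB {l : ℝ | ∃ K : Set (EuclideanSpace ℝ (Fin d)), IsConvexBody K ∧
        Tendsto (fun k : ℕ => coverConst K k / k) atTop (𝓝 l)} L ∧
      (1000000 ≤ d → 5 / (8 * Real.sqrt d) ≤ L ∧ L ≤ 4 / (5 * Real.sqrt d)) := by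
  have hd1 : 1 ≤ d := by omega
  have hβ' : β = bet d := hβ
  rw [hβ']
  have key : ∀ K : Set (EuclideanSpace ℝ (Fin d)), IsConvexBody K → bet d / 2 ≤ limConst K := by
    intro K hb
    refine limConst_ge_of hd1 hb fun k _ => ?_
    have hw := minWidth_pos hd1 hb
    refine le_csInf (cover_nonempty hd1 hb k) ?_
    rintro _ ⟨m, θ, a, b, hc, rfl⟩
    rw [le_div_iff₀ hw]
    have := total_ge_frame hd hb k m θ a b hc
    linarith
  refine ⟨⟨le_bet (by omega), bet_le hd⟩, fun K hb => ⟨limConst K, key K hb,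
    limConst_le_radius hd1 hb, limConst_mul_le hd1 hb,
    tendsto_limConst hd1 hb⟩, limDim d, limDim_ge_of key, limDim_le_sqrt hd1, limDim_mul_le hd1,
    tendsto_limDim hd1, ⟨?_, ?_⟩, fun hd6 => ⟨?_, S2.limDim_le_new hd6⟩⟩
  · rintro l ⟨K, hb, hl⟩
    rw [tendsto_nhds_unique hl (tendsto_limConst hd1 hb)]
    exact limDim_le hd1 hb
  · intro c hc
    exact limDim_ge_of fun K hb => hc ⟨K, hb, tendsto_limConst hd1 hb⟩
  · refine le_trans ?_ (limDim_ge_of key)
    have hdp : (1 : ℝ) < d := by exact_mod_cast (by omega : 1 < d)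
    have h1 := le_bet (d := d) (by omega)
    have hsd : 0 < Real.sqrt (d : ℝ) := Real.sqrt_pos.2 (by linarith)
    have h2 : 5 / (4 * Real.sqrt d) ≤ Real.sqrt (Real.pi / (2 * (d - 1))) := by
      apply Real.le_sqrt_of_sq_le
      rw [div_pow, mul_pow, Real.sq_sqrt (by linarith), div_le_div_iff₀ (by positivity) (by linarith)]
      have := Real.pi_gt_d2
      nlinarith
    have h3 : 5 / (8 * Real.sqrt d) = (5 / (4 * Real.sqrt d)) / 2 := by
      field_simp
      norm_num
    rw [h3]
    linarith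

end Pool.Agent.Results.MP_4043ba_gt.PlankGrowthInDimension
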