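import Mathlib
import Pool.Agent.V5helper78.PK.SP

/-!
# Multiple coverings by planks: balls and centrally symmetric bodies in all dimensions

Put `β_d = √π Γ((d-1)/2) / (2 Γ(d/2))`.  In dimension `d ≥ 3` the limit of `c_K(k)/k` is `β_d` for every ball,
and the limits for centrally symmetric convex bodies are exactly the numbers of the interval `[β_d, 1]`; so
balls have the cheapest multiple coverings among symmetric bodies.

Idea.  Lower bound: a thin spherical shell of the inscribed ball; a plank contains at most the fraction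
`width / (2 β_d r)` of it, up to a factor which tends to 1.  Upper bound for the ball: by linear
programming duality (file `DU`) there is a measure `μ` on the ball `B` with `μ(B) = w(B) lim c_B(k)/k` and
`μ(P) ≤ width(P)` for all planks `P`; integrating the last inequality over all planks of small width through
the centre gives `μ(B) ≤ β_d w(B)`.  All values of the interval occur for spheroids with one short half-axis `1`
and the others `R ≥ 1`: the limit depends continuously on `R`, and it is `1` for large `R` (file `FM`).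
-/

set_option autoImplicit false

open Filter Topology Metric

namespace Pool.Agent.Results.MP_4043ba_gt.SymmetricBodies

open Pool.Agent.Helper934.PlankDefs Pool.Agent.Helper934.PlankMain Pool.Agent.V5helper78.PK

/-- Let `d ≥ 3` and `β = √π Γ((d-1)/2) / (2 Γ(d/2))`, a number between `√(π/(2(d-1)))` and
`√(π/(2(d-2)))`.  For every ball `B` of `ℝ^d` `c_B(k)/k → β` for `k → ∞`.  For every convex body `K` in `ℝ^d`
the limit `l` of `c_K(k)/k` exists, `c_K(k) ≥ l k` for all `k`, and `β (2 r/w) ≤ l ≤ 2 r/w`.  The set of the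
limits for all centrally symmetric convex bodies of `ℝ^d` is the interval `[β, 1]`. -/
theorem result (d : ℕ) (hd : 3 ≤ d) (β : ℝ)
    (hβ : β = Real.sqrt Real.pi * Real.Gamma (((d : ℝ) - 1) / 2) / (2 * Real.Gamma ((d : ℝ) / 2))) :
    (Real.sqrt (Real.pi / (2 * (d - 1))) ≤ β ∧ β ≤ Real.sqrt (Real.pi / (2 * (d - 2)))) ∧
    (∀ (p : EuclideanSpace ℝ (Fin d)) (ρ : ℝ), 0 < ρ →
      Tendsto (fun k : ℕ => coverConst (closedBall p ρ) k / k) atTop (𝓝 β)) ∧
    (∀ K : Set (EuclideanSpace ℝ (Fin d)), IsConvexBody K →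
      ∃ l : ℝ, Tendsto (fun k : ℕ => coverConst K k / k) atTop (𝓝 l) ∧
        (∀ k : ℕ, l * k ≤ coverConst K k) ∧
        β * (2 * inradius K / minWidth K) ≤ l ∧ l ≤ 2 * inradius K / minWidth K) ∧
    {l : ℝ | ∃ K : Set (EuclideanSpace ℝ (Fin d)), IsConvexBody K ∧
      (∃ p : EuclideanSpace ℝ (Fin d), ∀ x ∈ K, (2 : ℝ) • p - x ∈ K) ∧
      Tendsto (fun k : ℕ => coverConst K k / k) atTop (𝓝 l)} = Set.Icc β 1 := by
  have hd1 : 1 ≤ d := by omega
  have hβ' : β = bet d := hβ
  rw [hβ']
  refine ⟨⟨le_bet (by omega), bet_le hd⟩, fun p ρ hρ => ?_, fun K hb => ?_, ?_⟩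
  · have h := tendsto_limConst hd1 (body_closedBall p hρ)
    rwa [limConst_ball hd p hρ] at h
  · exact ⟨limConst K, tendsto_limConst hd1 hb, limConst_mul_le hd1 hb, bet_mul_le hd hb,
      limConst_le_radius hd1 hb⟩
  · ext l
    constructor
    · rintro ⟨K, hb, ⟨p, hp⟩, hl⟩
      have hw := minWidth_pos hd1 hb
      have h1 := bet_mul_le hd hb
      have h2 := limConst_le_radius hd1 hb
      rw [← symm_width hd1 hb p hp, div_self hw.ne'] at h1 h2
      rw [mul_one] at h1
      rw [tendsto_nhds_unique hl (tendsto_limConst hd1 hb)]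
      exact ⟨h1, h2⟩
    · rintro ⟨h1, h2⟩
      obtain ⟨u, R, hu, hR, hl⟩ := exists_value hd h1 h2
      have hb := body_spheroid hu hR
      refine ⟨spheroid 0 u 1 R, hb, ⟨0, symm_spheroid R⟩, ?_⟩
      rw [← hl]
      exact tendsto_limConst hd1 hb

end Pool.Agent.Results.MP_4043ba_gt.SymmetricBodies
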